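import Pool.Agent.Run7.h148.AX.Stm1

set_option autoImplicit false

open MeasureTheory Set Filter Topology
open scoped ENNReal ContDiff FourierTransform

namespace Run7.h554.AX

open Pool.Agent.Run7.h148.AX

/-- all moments -/
def Mo (a : E3 → ℂ) : Prop := Measurable a ∧ ∀ k : ℕ, (∫⁻ ξ, wk k ξ * ‖a ξ‖ₑ) < ⊤

lemma wk_zero (ξ : E3) : wk 0 ξ = 1 := by simp [wk]

lemma wk_add (k p : ℕ) (ξ : E3) : wk (k + p) ξ = wk k ξ * wk p ξ := by
  unfold wk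
  rw [← ENNReal.ofReal_mul (by positivity), pow_add]

lemma Mo.fin {a : E3 → ℂ} (h : Mo a) : (∫⁻ ξ, ‖a ξ‖ₑ) < ⊤ := by
  have := h.2 0
  simpa [wk_zero] using this

lemma Mo.integrable {a : E3 → ℂ} (h : Mo a) : Integrable a :=
  ⟨h.1.aestronglyMeasurable, h.fin⟩

lemma en_le {E F : Type} [SeminormedAddGroup E] [SeminormedAddGroup F] (p : ℕ) (C : ℝ)
    (hC : 0 ≤ C) (ξ : E3) (z : E) (w : F)
    (h : ‖z‖ ≤ C * (1 + ‖ξ‖) ^ p * ‖w‖) : ‖z‖ₑ ≤ ENNReal.ofReal C * (wk p ξ * ‖w‖ₑ) := by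
  unfold wk
  rw [← ofReal_norm, ← ofReal_norm, ← ENNReal.ofReal_mul (by positivity),
    ← ENNReal.ofReal_mul hC]
  apply ENNReal.ofReal_le_ofReal
  calc ‖z‖ ≤ C * (1 + ‖ξ‖) ^ p * ‖w‖ := h
    _ = C * ((1 + ‖ξ‖) ^ p * ‖w‖) := by ring

lemma wk_le {E F : Type} [SeminormedAddGroup E] [SeminormedAddGroup F] (k p : ℕ) (C : ℝ)
    (hC : 0 ≤ C) (ξ : E3) (z : E) (w : F)
    (h : ‖z‖ ≤ C * (1 + ‖ξ‖) ^ p * ‖w‖) :
    wk k ξ * ‖z‖ₑ ≤ ENNReal.ofReal C * (wk (k + p) ξ * ‖w‖ₑ) := by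
  calc wk k ξ * ‖z‖ₑ ≤ wk k ξ * (ENNReal.ofReal C * (wk p ξ * ‖w‖ₑ)) := by
        gcongr
        exact en_le p C hC ξ z w h
    _ = ENNReal.ofReal C * (wk (k + p) ξ * ‖w‖ₑ) := by
        rw [wk_add]
        ring

lemma wk_meas (k : ℕ) : Measurable (wk k) := by
  unfold wk
  fun_prop

lemma Mo.of_le {a b : E3 → ℂ} (ha : Mo a) (hb : Measurable b) (p : ℕ) (C : ℝ) (hC : 0 ≤ C)
    (h : ∀ ξ, ‖b ξ‖ ≤ C * (1 + ‖ξ‖) ^ p * ‖a ξ‖) : Mo b := by
  refine ⟨hb, fun k => ?_⟩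
  calc (∫⁻ ξ, wk k ξ * ‖b ξ‖ₑ) ≤ ∫⁻ ξ, ENNReal.ofReal C * (wk (k + p) ξ * ‖a ξ‖ₑ) :=
        lintegral_mono fun ξ => wk_le k p C hC ξ _ _ (h ξ)
    _ = ENNReal.ofReal C * ∫⁻ ξ, wk (k + p) ξ * ‖a ξ‖ₑ := by
        rw [lintegral_const_mul]
        exact (wk_meas _).mul ha.1.enorm
    _ < ⊤ := ENNReal.mul_lt_top ENNReal.ofReal_lt_top (ha.2 _)

/-- multiplication with the symbol of a derivative -/
noncomputable def mj (j : Fin 3) (a : E3 → ℂ) : E3 → ℂ :=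
  fun ξ => 2 * Real.pi * Complex.I * (ξ j : ℂ) * a ξ

lemma coord_le (ξ : E3) (j : Fin 3) : |ξ j| ≤ ‖ξ‖ := by
  have := PiLp.norm_apply_le ξ j
  simpa using this

lemma meas_coord (j : Fin 3) : Measurable fun ξ : E3 => (ξ j : ℂ) := by
  apply Complex.measurable_ofReal.comp
  fun_prop

lemma mj_Mo {a : E3 → ℂ} (ha : Mo a) (j : Fin 3) : Mo (mj j a) := by
  apply ha.of_le _ 1 (2 * Real.pi) (by positivity)
  · intro ξ
    unfold mj
    rw [norm_mul, norm_mul]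
    have h1 : ‖(2 * Real.pi * Complex.I : ℂ)‖ = 2 * Real.pi := by
      simp [abs_of_pos Real.pi_pos]
    have h2 : ‖((ξ j : ℝ) : ℂ)‖ ≤ 1 + ‖ξ‖ := by
      rw [Complex.norm_real, Real.norm_eq_abs]
      linarith [coord_le ξ j]
    rw [h1, pow_one]
    gcongr
  · unfold mj
    exact (measurable_const.mul (meas_coord j)).mul ha.1

lemma inv_add {f g : E3 → ℂ} (hf : Integrable f) (hg : Integrable g) (x : E3) :
    𝓕⁻ (fun ξ => f ξ + g ξ) x = 𝓕⁻ f x + 𝓕⁻ g x := by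
  rw [Real.fourierInv_eq_fourier_neg, Real.fourierInv_eq_fourier_neg,
    Real.fourierInv_eq_fourier_neg, Real.fourier_eq, Real.fourier_eq, Real.fourier_eq,
    ← integral_add ((Real.fourierIntegral_convergent_iff (-x)).2 hf)
      ((Real.fourierIntegral_convergent_iff (-x)).2 hg)]
  simp only [smul_add]

lemma inv_const (c : ℂ) (f : E3 → ℂ) (x : E3) :
    𝓕⁻ (fun ξ => c * f ξ) x = c * 𝓕⁻ f x := by
  rw [Real.fourierInv_eq', Real.fourierInv_eq', ← integral_const_mul]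
  congr 1
  ext ξ
  simp only [smul_eq_mul]
  ring

lemma fi_diff (h1 : S_FI1) {a : E3 → ℂ} (ha : Mo a) : ContDiff ℝ ∞ (𝓕⁻ a) :=
  (h1.1 a ha.1 ha.2).1

lemma pd_re (h1 : S_FI1) {a : E3 → ℂ} (ha : Mo a) (j : Fin 3) :
    pd j (fun y => (𝓕⁻ a y).re) = fun x => (𝓕⁻ (mj j a) x).re := by
  ext x
  have hd : DifferentiableAt ℝ (𝓕⁻ a) x := (fi_diff h1 ha).differentiable (by simp) x
  have h2 : HasFDerivAt (fun y => (𝓕⁻ a y).re) (Complex.reCLM.comp (fderiv ℝ (𝓕⁻ a) x)) x :=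
    Complex.reCLM.hasFDerivAt.comp x hd.hasFDerivAt
  unfold pd
  rw [h2.fderiv]
  simp only [ContinuousLinearMap.comp_apply, Complex.reCLM_apply]
  rw [(h1.1 a ha.1 ha.2).2 j x]
  rfl

lemma lap_re (h1 : S_FI1) {a : E3 → ℂ} (ha : Mo a) (x : E3) :
    ∑ j, pd j (pd j (fun y => (𝓕⁻ a y).re)) x =
      (𝓕⁻ (fun ξ => ((-(4 * Real.pi ^ 2 * ‖ξ‖ ^ 2) : ℝ) : ℂ) * a ξ) x).re := by
  have h2 : ∀ j, pd j (pd j (fun y => (𝓕⁻ a y).re)) x = (𝓕⁻ (mj j (mj j a)) x).re := by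
    intro j
    rw [pd_re h1 ha j, pd_re h1 (mj_Mo ha j) j]
  simp only [h2, Fin.sum_univ_three]
  have i0 := (mj_Mo (mj_Mo ha 0) 0).integrable
  have i1 := (mj_Mo (mj_Mo ha 1) 1).integrable
  have i2 := (mj_Mo (mj_Mo ha 2) 2).integrable
  have hf : (fun ξ => ((-(4 * Real.pi ^ 2 * ‖ξ‖ ^ 2) : ℝ) : ℂ) * a ξ) =
      fun ξ => (mj 0 (mj 0 a) ξ + mj 1 (mj 1 a) ξ) + mj 2 (mj 2 a) ξ := by
    funext ξ
    have h3 : (‖ξ‖ ^ 2 : ℝ) = ξ 0 ^ 2 + ξ 1 ^ 2 + ξ 2 ^ 2 := by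
      rw [EuclideanSpace.norm_sq_eq, Fin.sum_univ_three]
      simp
    rw [h3]
    unfold mj
    push_cast
    linear_combination (-4 * (Real.pi : ℂ) ^ 2 * ((ξ 0 : ℂ) ^ 2 + (ξ 1 : ℂ) ^ 2 + (ξ 2 : ℂ) ^ 2) *
      a ξ) * Complex.I_sq
  have i01 : Integrable (fun ξ => mj 0 (mj 0 a) ξ + mj 1 (mj 1 a) ξ) := i0.add i1
  rw [hf, inv_add i01 i2, inv_add i0 i1, Complex.add_re, Complex.add_re]

/-- iterated symbols -/
noncomputable def mono (n : ℕ) (r : Fin n → Fin 3) (a : E3 → ℂ) : E3 → ℂ :=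
  fun ξ => (∏ i, (2 * Real.pi * Complex.I * (ξ (r i) : ℂ))) * a ξ

lemma mono_succ (n : ℕ) (r : Fin (n + 1) → Fin 3) (a : E3 → ℂ) :
    mono (n + 1) r a = mj (r 0) (mono n (fun i => r i.succ) a) := by
  ext ξ
  unfold mono mj
  rw [Fin.prod_univ_succ]
  ring

lemma mono_bd (n : ℕ) (r : Fin n → Fin 3) (a : E3 → ℂ) (ξ : E3) :
    ‖mono n r a ξ‖ ≤ (2 * Real.pi) ^ n * (1 + ‖ξ‖) ^ n * ‖a ξ‖ := by
  unfold mono
  rw [norm_mul, norm_prod, ← mul_pow]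
  apply mul_le_mul_of_nonneg_right _ (norm_nonneg _)
  calc ∏ i, ‖(2 * Real.pi * Complex.I * (ξ (r i) : ℂ) : ℂ)‖
      ≤ ∏ _i : Fin n, (2 * Real.pi * (1 + ‖ξ‖)) := by
        apply Finset.prod_le_prod
        · intro i _; exact norm_nonneg _
        · intro i _
          have h1 : ‖(2 * Real.pi * Complex.I : ℂ)‖ = 2 * Real.pi := by
            simp [abs_of_pos Real.pi_pos]
          rw [norm_mul, h1, Complex.norm_real, Real.norm_eq_abs]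
          have := coord_le ξ (r i)
          gcongr
          linarith
    _ = (2 * Real.pi * (1 + ‖ξ‖)) ^ n := by simp

lemma mono_Mo {a : E3 → ℂ} (ha : Mo a) (n : ℕ) (r : Fin n → Fin 3) : Mo (mono n r a) := by
  apply ha.of_le _ n ((2 * Real.pi) ^ n) (by positivity) (mono_bd n r a)
  unfold mono
  refine Measurable.mul ?_ ha.1
  exact Finset.measurable_fun_prod _ fun i _ => measurable_const.mul (meas_coord (r i))

lemma iter_eq (h1 : S_FI1) {a : E3 → ℂ} (ha : Mo a) : ∀ (n : ℕ) (r : Fin n → Fin 3) (x : E3),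
    iteratedFDeriv ℝ n (𝓕⁻ a) x (fun i => EuclideanSpace.single (r i) (1 : ℝ)) =
      𝓕⁻ (mono n r a) x := by
  intro n
  induction n with
  | zero =>
    intro r x
    rw [iteratedFDeriv_zero_apply]
    have : mono 0 r a = a := by
      funext ξ
      simp [mono]
    rw [this]
  | succ n ih =>
    intro r x
    rw [iteratedFDeriv_succ_apply_left]
    have hd : DifferentiableAt ℝ (iteratedFDeriv ℝ n (𝓕⁻ a)) x := by
      apply (fi_diff h1 ha).differentiable_iteratedFDeriv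
      exact_mod_cast ENat.natCast_lt_top n
    set m : Fin n → E3 := fun i => EuclideanSpace.single (r i.succ) (1 : ℝ) with hm
    have h2 : HasFDerivAt (fun y => iteratedFDeriv ℝ n (𝓕⁻ a) y m)
        ((ContinuousMultilinearMap.apply ℝ (fun _ : Fin n => E3) ℂ m).comp
          (fderiv ℝ (iteratedFDeriv ℝ n (𝓕⁻ a)) x)) x :=
      (ContinuousMultilinearMap.apply ℝ (fun _ : Fin n => E3) ℂ m).hasFDerivAt.comp x
        hd.hasFDerivAt
    have h3 : (fun y => iteratedFDeriv ℝ n (𝓕⁻ a) y m) = 𝓕⁻ (mono n (fun i => r i.succ) a) := by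
      ext y
      exact ih (fun i => r i.succ) y
    rw [h3] at h2
    have h4 := (h1.1 _ (mono_Mo ha n (fun i => r i.succ)).1 (mono_Mo ha n (fun i => r i.succ)).2).2
      (r 0) x
    rw [h2.fderiv] at h4
    rw [mono_succ]
    exact h4

lemma mult_bd (n : ℕ) (f : ContinuousMultilinearMap ℝ (fun _ : Fin n => E3) ℂ) :
    ‖f‖ ≤ ∑ r : Fin n → Fin 3, ‖f (fun i => EuclideanSpace.single (r i) (1 : ℝ))‖ := by
  apply ContinuousMultilinearMap.opNorm_le_bound (Finset.sum_nonneg fun _ _ => norm_nonneg _)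
  intro m
  have h1 : m = fun i => ∑ j : Fin 3, (m i j) • (EuclideanSpace.single j (1 : ℝ) : E3) := by
    funext i
    ext l
    simp [Finset.sum_apply, Pi.single_apply]
  calc ‖f m‖ = ‖f (fun i => ∑ j : Fin 3, (m i j) • (EuclideanSpace.single j (1 : ℝ) : E3))‖ := by
        rw [← h1]
    _ = ‖∑ r : Fin n → Fin 3, (∏ i, m i (r i)) •
          f (fun i => EuclideanSpace.single (r i) (1 : ℝ))‖ := by
        rw [ContinuousMultilinearMap.map_sum]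
        congr 1
        apply Finset.sum_congr rfl
        intro r _
        exact f.map_smul_univ _ _
    _ ≤ ∑ r : Fin n → Fin 3, ‖(∏ i, m i (r i)) •
          f (fun i => EuclideanSpace.single (r i) (1 : ℝ))‖ := norm_sum_le _ _
    _ ≤ ∑ r : Fin n → Fin 3, ‖f (fun i => EuclideanSpace.single (r i) (1 : ℝ))‖ * ∏ i, ‖m i‖ := by
        apply Finset.sum_le_sum
        intro r _
        rw [norm_smul, mul_comm, norm_prod]
        apply mul_le_mul_of_nonneg_left _ (norm_nonneg _)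
        apply Finset.prod_le_prod
        · intro i _; exact norm_nonneg _
        · intro i _
          exact PiLp.norm_apply_le (m i) (r i)
    _ = _ := by rw [Finset.sum_mul]

lemma sq_sum {ι : Type} (s : Finset ι) (f : ι → ℝ≥0∞) :
    (∑ i ∈ s, f i) ^ 2 ≤ (s.card : ℝ≥0∞) ^ 2 * ∑ i ∈ s, f i ^ 2 := by
  rcases s.eq_empty_or_nonempty with rfl | hs
  · simp
  obtain ⟨i, hi, hmax⟩ := s.exists_max_image f hs
  calc (∑ j ∈ s, f j) ^ 2 ≤ ((s.card : ℝ≥0∞) * f i) ^ 2 := by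
        gcongr
        refine le_trans (Finset.sum_le_card_nsmul s f (f i) hmax) ?_
        rw [nsmul_eq_mul]
    _ = (s.card : ℝ≥0∞) ^ 2 * f i ^ 2 := mul_pow _ _ _
    _ ≤ _ := by
        gcongr
        exact Finset.single_le_sum (f := fun i => f i ^ 2) (fun _ _ => bot_le) hi

/-- embedding of the component `k` -/
noncomputable def Lk (k : Fin 3) : ℂ →L[ℝ] E3 :=
  Complex.reCLM.smulRight (EuclideanSpace.single k (1 : ℝ))

lemma phy_eq (a : E3 → C3) : phy a = fun x => ∑ k, Lk k (𝓕⁻ (fun ξ => a ξ k) x) := by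
  funext x
  ext i
  simp [phy, Lk, Pi.single_apply]

lemma phy_iter (h1 : S_FI1) (a : E3 → C3) (ha : ∀ k, Mo (fun ξ => a ξ k)) (n : ℕ) (x : E3) :
    ‖iteratedFDeriv ℝ n (phy a) x‖ ≤
      ∑ k, ‖Lk k‖ * ‖iteratedFDeriv ℝ n (𝓕⁻ (fun ξ => a ξ k)) x‖ := by
  rw [phy_eq]
  have hc : ∀ k, ContDiff ℝ ∞ (𝓕⁻ (fun ξ => a ξ k)) := fun k => fi_diff h1 (ha k)
  rw [iteratedFDeriv_fun_sum_apply]
  · refine (norm_sum_le _ _).trans (Finset.sum_le_sum fun k _ => ?_)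
    exact (Lk k).norm_iteratedFDeriv_comp_left (hc k).contDiffAt (by exact_mod_cast le_top)
  · intro k _
    have : ContDiff ℝ ∞ (fun z => Lk k (𝓕⁻ (fun ξ => a ξ k) z)) := (Lk k).contDiff.comp (hc k)
    exact (this.of_le (by exact_mod_cast le_top)).contDiffAt

lemma comp_en (v : C3) (k : Fin 3) : ‖v k‖ₑ ≤ ‖v‖ₑ := by
  rw [← ofReal_norm, ← ofReal_norm]
  exact ENNReal.ofReal_le_ofReal (norm_le_pi_norm v k)

lemma Mo_comp {a : E3 → C3} (ha : Measurable a) (h : ∀ k : ℕ, (∫⁻ ξ, wk k ξ * ‖a ξ‖ₑ) < ⊤)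
    (k : Fin 3) : Mo (fun ξ => a ξ k) := by
  refine ⟨(measurable_pi_apply k).comp ha, fun n => lt_of_le_of_lt ?_ (h n)⟩
  apply lintegral_mono
  intro ξ
  dsimp only
  gcongr
  exact comp_en _ _

lemma Tame_le {A B b : ℝ → E3 → ℝ≥0∞} (hA : Tame A) (hB : Tame B)
    (hb : Measurable (Function.uncurry b)) (C : NNReal)
    (h : ∀ t ξ, b t ξ ≤ C * (wk 2 ξ * A t ξ) + B t ξ) : Tame b := by
  refine ⟨hb, fun k T => ?_⟩
  obtain ⟨M1, h1⟩ := hA.2 (k + 2) T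
  obtain ⟨M2, h2⟩ := hB.2 k T
  have hp : ∀ t ξ, wk k ξ * b t ξ ≤ C * (wk (k + 2) ξ * A t ξ) + wk k ξ * B t ξ := by
    intro t ξ
    calc wk k ξ * b t ξ ≤ wk k ξ * (C * (wk 2 ξ * A t ξ) + B t ξ) := by
          gcongr
          exact h t ξ
      _ = _ := by
          rw [wk_add]
          ring
  have hAm : ∀ t, Measurable (A t) := fun t => hA.1.of_uncurry_left
  refine ⟨C * M1 + M2, fun t ht => ⟨?_, fun ξ => ?_⟩⟩
  · calc (∫⁻ ξ, wk k ξ * b t ξ) ≤ ∫⁻ ξ, (C * (wk (k + 2) ξ * A t ξ) + wk k ξ * B t ξ) :=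
          lintegral_mono fun ξ => hp t ξ
      _ = C * (∫⁻ ξ, wk (k + 2) ξ * A t ξ) + ∫⁻ ξ, wk k ξ * B t ξ := by
          rw [lintegral_add_left, lintegral_const_mul]
          · exact (wk_meas _).mul (hAm t)
          · exact ((wk_meas _).mul (hAm t)).const_mul _
      _ ≤ C * M1 + M2 := by
          gcongr
          · exact (h1 t ht).1
          · exact (h2 t ht).1
      _ = _ := by push_cast; rfl
  · calc wk k ξ * b t ξ ≤ C * (wk (k + 2) ξ * A t ξ) + wk k ξ * B t ξ := hp t ξ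
      _ ≤ C * M1 + M2 := by
          gcongr
          · exact (h1 t ht).2 ξ
          · exact (h2 t ht).2 ξ
      _ = _ := by push_cast; rfl

/-- the equation -/
lemma eqn_ok (h1 : S_FI1) (h4 : S_FI4) (h5 : S_FI5) (ν : ℝ) (u : ℝ → E3 → C3) (hν : 0 < ν)
    (hu : TameV u) (hM : Mild (4 * Real.pi ^ 2 * ν) u) (t : ℝ) (ht : 0 ≤ t) (x : E3) (k : Fin 3)
    (N : ℝ) (hN : (𝓕⁻ (fun ξ => nl (u t) (u t) ξ k) x).re = N) :
    HasDerivWithinAt (fun s => phy (u s) x k)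
      (ν * (∑ j, pd j (pd j fun y => phy (u t) y k) x) + N) (Ici 0) t := by
  set κ := 4 * Real.pi ^ 2 * ν with hκd
  have hκ : 0 < κ := by positivity
  obtain ⟨-, -, hTn, hder⟩ := h4 κ u hκ hu hM
  have hnn : ∀ r, 0 ≤ r → ∀ n : ℕ, (∫⁻ ξ, wk n ξ * ‖u r ξ‖ₑ) < ⊤ := by
    intro r hr n
    obtain ⟨M, hMb⟩ := hu.2.2 n r
    exact lt_of_le_of_lt (hMb r ⟨hr, le_rfl⟩).1 ENNReal.coe_lt_top
  have hnl : ∀ n : ℕ, (∫⁻ ξ, wk n ξ * ‖nl (u t) (u t) ξ‖ₑ) < ⊤ := by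
    intro n
    obtain ⟨M, hMb⟩ := hTn.2.2 n t
    exact lt_of_le_of_lt (hMb t ⟨ht, le_rfl⟩).1 ENNReal.coe_lt_top
  have hMk : Mo (fun ξ => u t ξ k) := Mo_comp hu.1.of_uncurry_left (hnn t ht) k
  have hMn : Mo (fun ξ => nl (u t) (u t) ξ k) := by
    have : Measurable (nl (u t) (u t)) := by
      have := hTn.1
      exact Measurable.of_uncurry_left this
    exact Mo_comp this hnl k
  have hcoef : ∀ (s : ℝ) (ξ : E3), (-(κ * ‖ξ‖ ^ 2) • u s ξ + nl (u s) (u s) ξ) k =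
      ((-(κ * ‖ξ‖ ^ 2) : ℝ) : ℂ) * u s ξ k + nl (u s) (u s) ξ k := by
    intro s ξ
    simp
  have hbd : ∀ (s : ℝ) (ξ : E3), ‖((-(κ * ‖ξ‖ ^ 2) : ℝ) : ℂ) * u s ξ k‖ ≤
      κ * (1 + ‖ξ‖) ^ 2 * ‖u s ξ k‖ := by
    intro s ξ
    rw [norm_mul, Complex.norm_real, Real.norm_eq_abs, abs_neg, abs_of_nonneg (by positivity)]
    gcongr
    linarith [norm_nonneg ξ]
  have hd := h5 (fun s ξ => u s ξ k)
    (fun s ξ => (-(κ * ‖ξ‖ ^ 2) • u s ξ + nl (u s) (u s) ξ) k)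
    ((measurable_pi_apply k).comp hu.1) ?_ ?_ ?_ ?_ t ht x
  · have hd2 : HasDerivWithinAt (fun s => (𝓕⁻ (fun ξ => u s ξ k) x).re)
        (𝓕⁻ (fun ξ => (-(κ * ‖ξ‖ ^ 2) • u t ξ + nl (u t) (u t) ξ) k) x).re (Ici 0) t :=
      Complex.reCLM.hasFDerivAt.comp_hasDerivWithinAt t hd
    have hval : (𝓕⁻ (fun ξ => (-(κ * ‖ξ‖ ^ 2) • u t ξ + nl (u t) (u t) ξ) k) x).re =
        ν * (∑ j, pd j (pd j fun y => phy (u t) y k) x) + N := by
      have e1 : (fun ξ => (-(κ * ‖ξ‖ ^ 2) • u t ξ + nl (u t) (u t) ξ) k) =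
          fun ξ => (ν : ℂ) * (((-(4 * Real.pi ^ 2 * ‖ξ‖ ^ 2) : ℝ) : ℂ) * u t ξ k) +
            nl (u t) (u t) ξ k := by
        funext ξ
        rw [hcoef, hκd]
        push_cast
        ring
      have hMl : Mo (fun ξ => (ν : ℂ) * (((-(4 * Real.pi ^ 2 * ‖ξ‖ ^ 2) : ℝ) : ℂ) * u t ξ k)) := by
        apply hMk.of_le _ 2 κ hκ.le
        · intro ξ
          have e2 : (ν : ℂ) * (((-(4 * Real.pi ^ 2 * ‖ξ‖ ^ 2) : ℝ) : ℂ) * u t ξ k) =
              ((-(κ * ‖ξ‖ ^ 2) : ℝ) : ℂ) * u t ξ k := by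
            rw [hκd]
            push_cast
            ring
          rw [e2]
          exact hbd t ξ
        · refine measurable_const.mul (Measurable.mul ?_ hMk.1)
          apply Complex.measurable_ofReal.comp
          fun_prop
      rw [e1, inv_add hMl.integrable hMn.integrable, Complex.add_re, hN, inv_const,
        Complex.re_ofReal_mul, ← lap_re h1 hMk x]
      rfl
    rw [← hval]
    exact hd2
  · have : (Function.uncurry fun (s : ℝ) (ξ : E3) =>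
        (-(κ * ‖ξ‖ ^ 2) • u s ξ + nl (u s) (u s) ξ) k) = fun p : ℝ × E3 =>
        ((-(κ * ‖p.2‖ ^ 2) : ℝ) : ℂ) * u p.1 p.2 k + nl (u p.1) (u p.1) p.2 k := by
      funext p
      exact hcoef p.1 p.2
    rw [this]
    have m1 : Measurable fun p : ℝ × E3 => ((-(κ * ‖p.2‖ ^ 2) : ℝ) : ℂ) := by
      apply Complex.measurable_ofReal.comp
      fun_prop
    have m2 : Measurable fun p : ℝ × E3 => u p.1 p.2 k := (measurable_pi_apply k).comp hu.1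
    have m3 : Measurable fun p : ℝ × E3 => nl (u p.1) (u p.1) p.2 k :=
      (measurable_pi_apply k).comp hTn.1
    exact (m1.mul m2).add m3
  · have m2 : Measurable fun p : ℝ × E3 => u p.1 p.2 k := (measurable_pi_apply k).comp hu.1
    have m5 : Measurable (Function.uncurry fun (s : ℝ) (ξ : E3) => ‖u s ξ k‖ₑ) := m2.enorm
    apply Tame_le hu.2 hu.2 m5 0
    intro s ξ
    simp only [ENNReal.coe_zero, zero_mul, zero_add]
    exact comp_en _ _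
  · have m1 : Measurable fun p : ℝ × E3 => ((-(κ * ‖p.2‖ ^ 2) : ℝ) : ℂ) := by
      apply Complex.measurable_ofReal.comp
      fun_prop
    have m2 : Measurable fun p : ℝ × E3 => u p.1 p.2 k := (measurable_pi_apply k).comp hu.1
    have m3 : Measurable fun p : ℝ × E3 => nl (u p.1) (u p.1) p.2 k :=
      (measurable_pi_apply k).comp hTn.1
    have m4 : Measurable (Function.uncurry fun (s : ℝ) (ξ : E3) =>
        ‖(-(κ * ‖ξ‖ ^ 2) • u s ξ + nl (u s) (u s) ξ) k‖ₑ) := by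
      have : (Function.uncurry fun (s : ℝ) (ξ : E3) =>
        ‖(-(κ * ‖ξ‖ ^ 2) • u s ξ + nl (u s) (u s) ξ) k‖ₑ) = fun p : ℝ × E3 =>
        ‖((-(κ * ‖p.2‖ ^ 2) : ℝ) : ℂ) * u p.1 p.2 k + nl (u p.1) (u p.1) p.2 k‖ₑ := by
        funext p
        show ‖(-(κ * ‖p.2‖ ^ 2) • u p.1 p.2 + nl (u p.1) (u p.1) p.2) k‖ₑ = _
        rw [hcoef p.1 p.2]
      rw [this]
      exact ((m1.mul m2).add m3).enorm
    apply Tame_le hu.2 hTn.2 m4 κ.toNNReal
    intro s ξ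
    rw [hcoef]
    refine (enorm_add_le _ _).trans ?_
    gcongr
    · refine (en_le 2 κ hκ.le ξ _ (u s ξ k) (hbd s ξ)).trans ?_
      have : ENNReal.ofReal κ = ((κ.toNNReal : NNReal) : ℝ≥0∞) := rfl
      rw [this]
      gcongr
      exact comp_en _ _
    · exact comp_en _ _
  · intro s hs ξ
    exact (hasDerivWithinAt_pi.1 (hder s hs ξ)) k

/-- square integrability -/
lemma sqi_ok (h1 : S_FI1) (h2 : S_FI2) (n : ℕ) (M : NNReal) : ∃ K : NNReal, ∀ a : E3 → C3,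
    Measurable a → (∀ k : ℕ, (∫⁻ ξ, wk k ξ * ‖a ξ‖ₑ) < ⊤) → (∫⁻ ξ, wk n ξ * ‖a ξ‖ₑ) ≤ M →
    (∀ ξ, wk n ξ * ‖a ξ‖ₑ ≤ M) → ∫⁻ x, ‖iteratedFDeriv ℝ n (phy a) x‖ₑ ^ 2 ≤ K := by
  set Lr : ℝ := ∑ k, ‖Lk k‖ with hLr
  have hLr0 : 0 ≤ Lr := Finset.sum_nonneg fun _ _ => norm_nonneg _
  set D : ℝ≥0∞ := ENNReal.ofReal ((2 * Real.pi) ^ n) with hD
  set K : ℝ≥0∞ := ENNReal.ofReal Lr ^ 2 * (((Finset.univ : Finset (Fin 3 × (Fin n → Fin 3))).card :
    ℝ≥0∞) ^ 2 * ∑ _s : Fin 3 × (Fin n → Fin 3), (D ^ 2 * M * M)) with hK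
  have hKt : K ≠ ⊤ := by
    apply ENNReal.mul_ne_top (ENNReal.pow_ne_top ENNReal.ofReal_ne_top)
    apply ENNReal.mul_ne_top (ENNReal.pow_ne_top (ENNReal.natCast_ne_top _))
    apply ENNReal.sum_ne_top.2
    intro _ _
    exact ENNReal.mul_ne_top (ENNReal.mul_ne_top (ENNReal.pow_ne_top ENNReal.ofReal_ne_top)
      ENNReal.coe_ne_top) ENNReal.coe_ne_top
  refine ⟨K.toNNReal, fun a ha hm hi hs => ?_⟩
  rw [ENNReal.coe_toNNReal hKt]
  have hMo : ∀ k, Mo (fun ξ => a ξ k) := Mo_comp ha hm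
  set F : Fin 3 × (Fin n → Fin 3) → E3 → ℂ := fun s => 𝓕⁻ (mono n s.2 (fun ξ => a ξ s.1)) with hF
  have hpt : ∀ x, ‖iteratedFDeriv ℝ n (phy a) x‖ₑ ^ 2 ≤ ENNReal.ofReal Lr ^ 2 *
      (((Finset.univ : Finset (Fin 3 × (Fin n → Fin 3))).card : ℝ≥0∞) ^ 2 *
        ∑ s : Fin 3 × (Fin n → Fin 3), ‖F s x‖ₑ ^ 2) := by
    intro x
    have r1 : ‖iteratedFDeriv ℝ n (phy a) x‖ ≤ Lr * ∑ s : Fin 3 × (Fin n → Fin 3), ‖F s x‖ := by
      calc ‖iteratedFDeriv ℝ n (phy a) x‖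
          ≤ ∑ k, ‖Lk k‖ * ‖iteratedFDeriv ℝ n (𝓕⁻ (fun ξ => a ξ k)) x‖ := phy_iter h1 a hMo n x
        _ ≤ ∑ k, Lr * ∑ r : Fin n → Fin 3, ‖F (k, r) x‖ := by
            apply Finset.sum_le_sum
            intro k _
            apply mul_le_mul
            · exact Finset.single_le_sum (f := fun k => ‖Lk k‖) (fun _ _ => norm_nonneg _)
                (Finset.mem_univ k)
            · refine (mult_bd n _).trans (Finset.sum_le_sum fun r _ => ?_)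
              rw [iter_eq h1 (hMo k) n r x]
            · exact norm_nonneg _
            · exact hLr0
        _ = Lr * ∑ s : Fin 3 × (Fin n → Fin 3), ‖F s x‖ := by
            rw [← Finset.mul_sum, Fintype.sum_prod_type]
    have r2 : ‖iteratedFDeriv ℝ n (phy a) x‖ₑ ≤
        ENNReal.ofReal Lr * ∑ s : Fin 3 × (Fin n → Fin 3), ‖F s x‖ₑ := by
      have hsum : ENNReal.ofReal (∑ s : Fin 3 × (Fin n → Fin 3), ‖F s x‖) =
          ∑ s : Fin 3 × (Fin n → Fin 3), ‖F s x‖ₑ := by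
        rw [ENNReal.ofReal_sum_of_nonneg fun _ _ => norm_nonneg _]
        simp only [ofReal_norm]
      rw [← ofReal_norm, ← hsum, ← ENNReal.ofReal_mul hLr0]
      exact ENNReal.ofReal_le_ofReal r1
    calc ‖iteratedFDeriv ℝ n (phy a) x‖ₑ ^ 2
        ≤ (ENNReal.ofReal Lr * ∑ s : Fin 3 × (Fin n → Fin 3), ‖F s x‖ₑ) ^ 2 := by gcongr
      _ = ENNReal.ofReal Lr ^ 2 * (∑ s : Fin 3 × (Fin n → Fin 3), ‖F s x‖ₑ) ^ 2 := mul_pow _ _ _
      _ ≤ _ := by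
          gcongr
          exact sq_sum Finset.univ (fun s => ‖F s x‖ₑ)
  have hFm : ∀ s, Measurable fun x => ‖F s x‖ₑ ^ 2 := by
    intro s
    have : Continuous (F s) := (fi_diff h1 (mono_Mo (hMo s.1) n s.2)).continuous
    exact this.measurable.enorm.pow_const 2
  have hFi : ∀ s, (∫⁻ x, ‖F s x‖ₑ ^ 2) ≤ D ^ 2 * M * M := by
    intro s
    refine (h2 _ (mono_Mo (hMo s.1) n s.2).1 (mono_Mo (hMo s.1) n s.2).fin).trans ?_
    calc (∫⁻ ξ, ‖mono n s.2 (fun ξ => a ξ s.1) ξ‖ₑ ^ 2)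
        ≤ ∫⁻ ξ, D ^ 2 * M * (wk n ξ * ‖a ξ‖ₑ) := by
          apply lintegral_mono
          intro ξ
          dsimp only
          have r3 : ‖mono n s.2 (fun ξ => a ξ s.1) ξ‖ₑ ≤ D * (wk n ξ * ‖a ξ‖ₑ) := by
            refine (en_le n _ (by positivity) ξ _ (a ξ s.1) (mono_bd n s.2 _ ξ)).trans ?_
            gcongr
            exact comp_en _ _
          calc ‖mono n s.2 (fun ξ => a ξ s.1) ξ‖ₑ ^ 2 ≤ (D * (wk n ξ * ‖a ξ‖ₑ)) ^ 2 := by gcongr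
            _ = D ^ 2 * (wk n ξ * ‖a ξ‖ₑ) * (wk n ξ * ‖a ξ‖ₑ) := by ring
            _ ≤ D ^ 2 * M * (wk n ξ * ‖a ξ‖ₑ) := by
                gcongr
                exact hs ξ
      _ = D ^ 2 * M * ∫⁻ ξ, wk n ξ * ‖a ξ‖ₑ := by
          rw [lintegral_const_mul]
          exact (wk_meas _).mul ha.enorm
      _ ≤ D ^ 2 * M * M := by gcongr
  calc (∫⁻ x, ‖iteratedFDeriv ℝ n (phy a) x‖ₑ ^ 2)
      ≤ ∫⁻ x, ENNReal.ofReal Lr ^ 2 *
        (((Finset.univ : Finset (Fin 3 × (Fin n → Fin 3))).card : ℝ≥0∞) ^ 2 *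
          ∑ s : Fin 3 × (Fin n → Fin 3), ‖F s x‖ₑ ^ 2) := lintegral_mono hpt
    _ = ENNReal.ofReal Lr ^ 2 * (((Finset.univ : Finset (Fin 3 × (Fin n → Fin 3))).card :
          ℝ≥0∞) ^ 2 * ∑ s : Fin 3 × (Fin n → Fin 3), ∫⁻ x, ‖F s x‖ₑ ^ 2) := by
        rw [lintegral_const_mul, lintegral_const_mul, lintegral_finsetSum]
        · intro s _; exact hFm s
        · exact Finset.measurable_fun_sum _ fun s _ => hFm s
        · exact (Finset.measurable_fun_sum _ fun s _ => hFm s).const_mul _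
    _ ≤ K := by
        rw [hK]
        gcongr with s _
        exact hFi s

theorem t_PHY : S_FI1 → S_FI2 → S_FI3 → S_FI4 → S_FI5 → S_FI6 → S_PHY := by
  intro h1 h2 h3 h4 h5 h6 ν u hν hu hM hS
  have hmu : ∀ t, Measurable (u t) := fun t => hu.1.of_uncurry_left
  have hmom : ∀ t, 0 ≤ t → ∀ k : ℕ, (∫⁻ ξ, wk k ξ * ‖u t ξ‖ₑ) < ⊤ := by
    intro t ht k
    obtain ⟨M, hMb⟩ := hu.2.2 k t
    exact lt_of_le_of_lt (hMb t ⟨ht, le_rfl⟩).1 ENNReal.coe_lt_top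
  have hex : ∀ t, ∃ p : E3 → ℝ, 0 ≤ t → (ContDiff ℝ ∞ p ∧ ∀ x k,
      (𝓕⁻ (fun ξ => nl (u t) (u t) ξ k) x).re
        = -(∑ j, phy (u t) x j * pd j (fun y => phy (u t) y k) x) - pd k p x) := by
    intro t
    by_cases ht : 0 ≤ t
    · obtain ⟨p, hp⟩ := h6 (u t) (hmu t) (hmom t ht) (hS t ht).1 (hS t ht).2.2
      exact ⟨p, fun _ => hp⟩
    · exact ⟨0, fun h => absurd h ht⟩
  choose p hp using hex
  refine ⟨p, ⟨?_, ?_, ?_, ?_, ?_, ?_⟩⟩
  · intro t ht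
    exact ⟨(h3 (u t) (hmu t) (hmom t ht)).2.2.2, (hp t ht).1⟩
  · intro t ht
    exact (h3 (u t) (hmu t) (hmom t ht)).2.1 (hS t ht).1 (hS t ht).2.1
  · intro t ht x
    exact (h3 (u t) (hmu t) (hmom t ht)).2.2.1 (hS t ht).1 (hS t ht).2.2 x
  · intro t ht x k
    have h := eqn_ok h1 h4 h5 ν u hν hu hM t ht x k _ ((hp t ht).2 x k)
    convert h using 1
    ring
  · intro n T
    obtain ⟨C, hC, hb⟩ := h1.2 n
    obtain ⟨M, hMb⟩ := hu.2.2 n T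
    refine ⟨∑ k, ‖Lk k‖ * (C * M), fun t ht x => ?_⟩
    have hMo : ∀ k, Mo (fun ξ => u t ξ k) := Mo_comp (hmu t) (hmom t ht.1)
    refine (phy_iter h1 (u t) hMo n x).trans (Finset.sum_le_sum fun k _ => ?_)
    apply mul_le_mul_of_nonneg_left _ (norm_nonneg _)
    refine (hb _ (hMo k).1 (hMo k).2 x).trans ?_
    apply mul_le_mul_of_nonneg_left _ hC
    apply ENNReal.toReal_le_coe_of_le_coe
    refine le_trans (lintegral_mono fun ξ => ?_) (hMb t ht).1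
    dsimp only [nm]
    gcongr
    exact comp_en _ _
  · intro n T
    obtain ⟨M, hMb⟩ := hu.2.2 n T
    obtain ⟨K, hK⟩ := sqi_ok h1 h2 n M
    refine ⟨K, fun t ht => ?_⟩
    exact hK (u t) (hmu t) (hmom t ht.1) (hMb t ht).1 (hMb t ht).2

end Run7.h554.AX
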