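import Pool.Agent.Run7.h148.AX.Stm5
import Pool.Agent.Run7.h554.AX.PHY

set_option autoImplicit false

open MeasureTheory Set Filter Topology
open scoped ENNReal ContDiff FourierTransform

namespace Run7.h554.AX

open Pool.Agent.Run7.h148.AX

lemma one_le_wk (k : ℕ) (ξ : E3) : 1 ≤ wk k ξ := by
  unfold wk
  rw [ENNReal.one_le_ofReal]
  exact one_le_pow₀ (by linarith [norm_nonneg ξ])

lemma TameV_of_le {a b c : ℝ → E3 → C3} (ha : TameV a) (hb : TameV b)
    (hc : Measurable (Function.uncurry c)) (h : ∀ t ξ, ‖c t ξ‖ₑ ≤ ‖a t ξ‖ₑ + ‖b t ξ‖ₑ) :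
    TameV c := by
  refine ⟨hc, ?_⟩
  have hm : Measurable (Function.uncurry (nm c)) := hc.enorm
  apply Tame_le ha.2 hb.2 hm 1
  intro t ξ
  refine (h t ξ).trans ?_
  simp only [ENNReal.coe_one, one_mul]
  unfold nm
  gcongr
  exact le_mul_of_one_le_left (by positivity) (one_le_wk 2 ξ)

lemma TameV_add {a b : ℝ → E3 → C3} (ha : TameV a) (hb : TameV b) :
    TameV fun t ξ => a t ξ + b t ξ :=
  TameV_of_le ha hb (ha.1.add hb.1) fun _ _ => enorm_add_le _ _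

lemma TameV_sub {a b : ℝ → E3 → C3} (ha : TameV a) (hb : TameV b) :
    TameV fun t ξ => a t ξ - b t ξ :=
  TameV_of_le ha hb (ha.1.sub hb.1) fun _ _ => enorm_sub_le

lemma TameV_max {a : ℝ → E3 → C3} (ha : TameV a) : TameV fun t ξ => a (max t 0) ξ := by
  have hm : Measurable (Function.uncurry fun (t : ℝ) (ξ : E3) => a (max t 0) ξ) := by
    have h1 : Measurable fun p : ℝ × E3 => ((max p.1 0, p.2) : ℝ × E3) := by fun_prop
    exact ha.1.comp h1
  refine ⟨hm, hm.enorm, ?_⟩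
  intro k T
  obtain ⟨M, hM⟩ := ha.2.2 k T
  refine ⟨M, fun t ht => ?_⟩
  have := hM t ht
  simpa [nm, max_eq_left ht.1] using this

lemma rc_add (θ : ℝ) (v w : C3) : rc θ (v + w) = rc θ v + rc θ w := by
  unfold rc
  ext k
  fin_cases k <;> simp <;> ring

lemma rc_sub (θ : ℝ) (v w : C3) : rc θ (v - w) = rc θ v - rc θ w := by
  unfold rc
  ext k
  fin_cases k <;> simp <;> ring

lemma Sym_add {a b : E3 → C3} (ha : Sym a) (hb : Sym b) : Sym fun ξ => a ξ + b ξ := by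
  refine ⟨fun ξ k => ?_, fun θ ξ => ?_, fun ξ => ?_⟩
  · simp only [Pi.add_apply, map_add]
    rw [ha.1 ξ k, hb.1 ξ k]
  · dsimp only
    rw [ha.2.1 θ ξ, hb.2.1 θ ξ, rc_add]
  · have h1 := ha.2.2 ξ
    have h2 := hb.2.2 ξ
    unfold dt at *
    simp only [Pi.add_apply, mul_add, Finset.sum_add_distrib]
    rw [h1, h2, add_zero]

lemma Sym_sub {a b : E3 → C3} (ha : Sym a) (hb : Sym b) : Sym fun ξ => a ξ - b ξ := by
  refine ⟨fun ξ k => ?_, fun θ ξ => ?_, fun ξ => ?_⟩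
  · simp only [Pi.sub_apply, map_sub]
    rw [ha.1 ξ k, hb.1 ξ k]
  · dsimp only
    rw [ha.2.1 θ ξ, hb.2.1 θ ξ, rc_sub]
  · have h1 := ha.2.2 ξ
    have h2 := hb.2.2 ξ
    unfold dt at *
    simp only [Pi.sub_apply, mul_sub, Finset.sum_sub_distrib]
    rw [h1, h2, sub_zero]

lemma Sym_nl (h : S_SY1) {a b : E3 → C3} (ha : Sym a) (hb : Sym b) : Sym (nl a b) :=
  ⟨h.1 a b ha.1 hb.1, h.2.1 a b ha.2.1 hb.2.1, h.2.2 a b⟩

lemma ht_le {κ : ℝ} (hκ : 0 < κ) (ξ : E3) {r : ℝ} (hr : 0 ≤ r) : |ht κ ξ r| ≤ 1 := by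
  unfold ht
  rw [abs_of_pos (Real.exp_pos _), Real.exp_le_one_iff]
  have : 0 ≤ κ * ‖ξ‖ ^ 2 * r := by positivity
  linarith

lemma ht_int {κ : ℝ} (hκ : 0 < κ) {a : ℝ → E3 → C3} (ha : TameV a) (t : ℝ) (ξ : E3) :
    IntegrableOn (fun s => ht κ ξ (t - s) • a s ξ) (Ioc 0 t) := by
  obtain ⟨M, hM⟩ := ha.2.2 0 t
  have hm1 : Measurable fun s : ℝ => ht κ ξ (t - s) := by
    unfold ht
    fun_prop
  have hm2 : Measurable fun s : ℝ => a s ξ := by
    have h1 : Measurable fun s : ℝ => ((s, ξ) : ℝ × E3) := by fun_prop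
    exact ha.1.comp h1
  apply Measure.integrableOn_of_bounded (M := M) (by simp) (hm1.smul hm2).aestronglyMeasurable
  apply (ae_restrict_iff' measurableSet_Ioc).2
  refine Eventually.of_forall fun s hs => ?_
  have h1 := (hM s ⟨hs.1.le, hs.2⟩).2 ξ
  rw [wk_zero, one_mul] at h1
  have h2 : ‖a s ξ‖ ≤ M := by
    have : ENNReal.ofReal ‖a s ξ‖ ≤ M := by
      rw [ofReal_norm]
      exact h1
    have h3 := (ENNReal.ofReal_le_iff_le_toReal ENNReal.coe_ne_top).1 this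
    simpa using h3
  show ‖ht κ ξ (t - s) • a s ξ‖ ≤ M
  rw [norm_smul, Real.norm_eq_abs]
  calc |ht κ ξ (t - s)| * ‖a s ξ‖ ≤ 1 * ‖a s ξ‖ := by
        gcongr
        exact ht_le hκ ξ (by linarith [hs.2])
    _ ≤ M := by rw [one_mul]; exact h2

lemma cv_fin {a b : ℝ → E3 → C3} (ha : TameV a) (hb : TameV b) {s : ℝ} (hs : 0 ≤ s) (ξ : E3) :
    cv (fun η => ‖a s η‖ₑ) (fun η => ‖b s η‖ₑ) ξ < ⊤ := by
  obtain ⟨M, hM⟩ := ha.2.2 0 s
  obtain ⟨M', hM'⟩ := hb.2.2 0 s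
  have h1 := (hM s ⟨hs, le_rfl⟩).2
  have h2 := (hM' s ⟨hs, le_rfl⟩).1
  simp only [wk_zero, one_mul] at h1 h2
  unfold cv
  calc (∫⁻ η, ‖a s (ξ - η)‖ₑ * ‖b s η‖ₑ) ≤ ∫⁻ η, M * ‖b s η‖ₑ := by
        apply lintegral_mono
        intro η
        dsimp only
        gcongr
        exact h1 (ξ - η)
    _ = M * ∫⁻ η, ‖b s η‖ₑ := by
        rw [lintegral_const_mul]
        exact (hb.1.of_uncurry_left).enorm
    _ ≤ M * M' := by
        gcongr
        exact h2
    _ < ⊤ := ENNReal.mul_lt_top ENNReal.coe_lt_top ENNReal.coe_lt_top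

lemma nl_expand (h : S_NLL) {g U : ℝ → E3 → C3} (hg : TameV g) (hU : TameV U) {s : ℝ}
    (hs : 0 ≤ s) (ξ : E3) :
    nl (fun η => g s η + U s η) (fun η => g s η + U s η) ξ =
      nl (g s) (g s) ξ + nl (g s) (U s) ξ + (nl (U s) (g s) ξ + nl (U s) (U s) ξ) := by
  have hgm : Measurable (g s) := hg.1.of_uncurry_left
  have hUm : Measurable (U s) := hU.1.of_uncurry_left
  have hgU : TameV fun t ξ => g t ξ + U t ξ := TameV_add hg hU
  have h1 := (h (g s) (U s) (fun η => g s η + U s η) (g s) hgm hUm (hgm.add hUm) hgm ξ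
    (cv_fin hg hgU hs ξ) (cv_fin hU hgU hs ξ) (cv_fin hg hg hs ξ)).1
  have h2 := (h (g s) (U s) (g s) (U s) hgm hUm hgm hUm ξ
    (cv_fin hg hg hs ξ) (cv_fin hU hg hs ξ) (cv_fin hg hU hs ξ)).2.2.1
  have h3 := (h (U s) (g s) (g s) (U s) hUm hgm hgm hUm ξ
    (cv_fin hU hg hs ξ) (cv_fin hg hg hs ξ) (cv_fin hU hU hs ξ)).2.2.1
  rw [h1, h2, h3]

lemma iw_nl (hN : S_NLB) (hC : S_CVM) {a b : ℝ → E3 → C3} (ha : TameV a) (hb : TameV b) (s : ℝ) :
    (∫⁻ ξ, iw ξ * ‖nl (a s) (b s) ξ‖ₑ) ≤ 40 * ((∫⁻ ξ, ‖a s ξ‖ₑ) * ∫⁻ ξ, ‖b s ξ‖ₑ) := by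
  have ham : Measurable fun η => ‖a s η‖ₑ := ha.1.of_uncurry_left.enorm
  have hbm : Measurable fun η => ‖b s η‖ₑ := hb.1.of_uncurry_left.enorm
  have hi : ∀ ξ, iw ξ * nw ξ ≤ 1 := by
    intro ξ
    unfold iw nw
    rw [← ENNReal.ofReal_mul (by positivity)]
    rw [ENNReal.ofReal_le_one]
    by_cases h : ‖ξ‖ = 0
    · simp [h]
    · rw [inv_mul_cancel₀ h]
  calc (∫⁻ ξ, iw ξ * ‖nl (a s) (b s) ξ‖ₑ)
      ≤ ∫⁻ ξ, 40 * cv (fun η => ‖a s η‖ₑ) (fun η => ‖b s η‖ₑ) ξ := by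
        apply lintegral_mono
        intro ξ
        dsimp only
        calc iw ξ * ‖nl (a s) (b s) ξ‖ₑ
            ≤ iw ξ * (40 * nw ξ * cv (fun η => ‖a s η‖ₑ) (fun η => ‖b s η‖ₑ) ξ) := by
              gcongr
              exact hN _ _ _
          _ = (iw ξ * nw ξ) * (40 * cv (fun η => ‖a s η‖ₑ) (fun η => ‖b s η‖ₑ) ξ) := by ring
          _ ≤ 1 * (40 * cv (fun η => ‖a s η‖ₑ) (fun η => ‖b s η‖ₑ) ξ) := by
              gcongr
              exact hi ξ
          _ = _ := one_mul _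
    _ = 40 * ∫⁻ ξ, cv (fun η => ‖a s η‖ₑ) (fun η => ‖b s η‖ₑ) ξ := by
        rw [lintegral_const_mul]
        exact (hC.1 _ _ ham hbm).1
    _ = _ := by rw [(hC.1 _ _ ham hbm).2]

theorem t_ADD : S_TMN → S_NLB → S_NLL → S_CVM → S_SY1 → S_ADD := by
  intro hTM hNB hNL hCV hSY κ K η γ B H HU R g U hκ hK hη hγ hB hH hH0 hHK hR hg hRs hgs hgH hRη
    hgγ hgeq hU hMU hUs hHU hHUB hHUi hUH
  set U' : ℝ → E3 → C3 := fun t ξ => U (max t 0) ξ with hU'
  have hU't : TameV U' := TameV_max hU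
  have hU's : ∀ t, Sym (U' t) := fun t => hUs (max t 0) (le_max_right _ _)
  have hU'e : ∀ t, 0 ≤ t → U' t = U t := by
    intro t ht
    funext ξ
    simp [hU', max_eq_left ht]
  have hgU := hTM g U' hg hU't
  have hUg := hTM U' g hU't hg
  set R1 : ℝ → E3 → C3 := fun t ξ => (R t ξ - nl (g t) (U' t) ξ) - nl (U' t) (g t) ξ with hR1
  have hR1t : TameV R1 := TameV_sub (TameV_sub hR hgU) hUg
  refine ⟨R1, fun t ξ => g t ξ + U' t ξ, fun t ξ => rfl, hR1t, TameV_add hg hU't, ?_, ?_, ?_, ?_,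
    ?_, ?_⟩
  · intro t
    exact Sym_sub (Sym_sub (hRs t) (Sym_nl hSY (hgs t) (hU's t))) (Sym_nl hSY (hU's t) (hgs t))
  · intro t
    exact Sym_add (hgs t) (hU's t)
  · intro t ht
    have h1 := hgH t ht
    have h2 := hUH t ht
    rw [ENNReal.ofReal_add (hH0 t) (hHUB t).1]
    calc (∫⁻ ξ, nm (fun t ξ => g t ξ + U' t ξ) t ξ) ≤ ∫⁻ ξ, (nm g t ξ + nm U t ξ) := by
          apply lintegral_mono
          intro ξ
          unfold nm
          dsimp only
          rw [hU'e t ht]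
          exact enorm_add_le _ _
      _ = (∫⁻ ξ, nm g t ξ) + ∫⁻ ξ, nm U t ξ := by
          rw [lintegral_add_left]
          exact hg.1.of_uncurry_left.enorm
      _ ≤ _ := add_le_add h1 h2
  · intro T hT
    have c1 : Continuous fun s => H s ^ 2 := hH.pow 2
    have c2 : Continuous fun s => HU s ^ 2 := hHU.pow 2
    calc (∫ s in (0 : ℝ)..T, (H s + HU s) ^ 2)
        ≤ ∫ s in (0 : ℝ)..T, (2 * H s ^ 2 + 2 * HU s ^ 2) := by
          apply intervalIntegral.integral_mono_on hT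
          · exact ((hH.add hHU).pow 2).intervalIntegrable _ _
          · exact ((c1.const_mul 2).add (c2.const_mul 2)).intervalIntegrable _ _
          · intro s _
            nlinarith [sq_nonneg (H s - HU s)]
      _ = 2 * (∫ s in (0 : ℝ)..T, H s ^ 2) + 2 * ∫ s in (0 : ℝ)..T, HU s ^ 2 := by
          rw [intervalIntegral.integral_add, intervalIntegral.integral_const_mul,
            intervalIntegral.integral_const_mul]
          · exact (c1.const_mul 2).intervalIntegrable _ _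
          · exact (c2.const_mul 2).intervalIntegrable _ _
      _ ≤ 2 * K + 2 * B := by
          have := hHK T hT
          have := hHUi T hT
          linarith
  · have hpt : ∀ s ∈ Ioi (0 : ℝ), (∫⁻ ξ, iw ξ * nm R1 s ξ) ≤
        (∫⁻ ξ, iw ξ * nm R s ξ) + ENNReal.ofReal (80 * B) * ∫⁻ ξ, nm g s ξ := by
      intro s hs
      have hs0 : (0 : ℝ) ≤ s := le_of_lt hs
      have hUb : (∫⁻ ξ, ‖U' s ξ‖ₑ) ≤ ENNReal.ofReal B := by
        rw [hU'e s hs0]
        exact (hUH s hs0).trans (ENNReal.ofReal_le_ofReal (hHUB s).2)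
      have m1 : Measurable fun ξ => iw ξ * nm R s ξ := by
        have : Measurable iw := by unfold iw; fun_prop
        exact this.mul hR.1.of_uncurry_left.enorm
      have m2 : Measurable fun ξ => iw ξ * ‖nl (g s) (U' s) ξ‖ₑ := by
        have : Measurable iw := by unfold iw; fun_prop
        have h2 : Measurable (nl (g s) (U' s)) := Measurable.of_uncurry_left hgU.1
        exact this.mul h2.enorm
      calc (∫⁻ ξ, iw ξ * nm R1 s ξ)
          ≤ ∫⁻ ξ, (iw ξ * nm R s ξ + iw ξ * ‖nl (g s) (U' s) ξ‖ₑ +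
              iw ξ * ‖nl (U' s) (g s) ξ‖ₑ) := by
            apply lintegral_mono
            intro ξ
            dsimp only
            rw [← mul_add, ← mul_add]
            gcongr
            show ‖R s ξ - nl (g s) (U' s) ξ - nl (U' s) (g s) ξ‖ₑ ≤ _
            refine enorm_sub_le.trans ?_
            gcongr
            exact enorm_sub_le
        _ = (∫⁻ ξ, iw ξ * nm R s ξ) + (∫⁻ ξ, iw ξ * ‖nl (g s) (U' s) ξ‖ₑ) +
              ∫⁻ ξ, iw ξ * ‖nl (U' s) (g s) ξ‖ₑ := by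
            have m12 : Measurable fun ξ => iw ξ * nm R s ξ + iw ξ * ‖nl (g s) (U' s) ξ‖ₑ :=
              m1.add m2
            rw [lintegral_add_left m12, lintegral_add_left m1]
        _ ≤ (∫⁻ ξ, iw ξ * nm R s ξ) + 40 * ((∫⁻ ξ, ‖g s ξ‖ₑ) * ∫⁻ ξ, ‖U' s ξ‖ₑ) +
              40 * ((∫⁻ ξ, ‖U' s ξ‖ₑ) * ∫⁻ ξ, ‖g s ξ‖ₑ) := by
            gcongr
            · exact iw_nl hNB hCV hg hU't s
            · exact iw_nl hNB hCV hU't hg s
        _ ≤ (∫⁻ ξ, iw ξ * nm R s ξ) + 40 * ((∫⁻ ξ, ‖g s ξ‖ₑ) * ENNReal.ofReal B) +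
              40 * (ENNReal.ofReal B * ∫⁻ ξ, ‖g s ξ‖ₑ) := by
            gcongr
        _ = (∫⁻ ξ, iw ξ * nm R s ξ) + ENNReal.ofReal (80 * B) * ∫⁻ ξ, nm g s ξ := by
            rw [ENNReal.ofReal_mul (by norm_num)]
            have h80 : ENNReal.ofReal 80 = 80 := by simp
            rw [h80]
            unfold nm
            ring
    have m3 : Measurable fun s : ℝ => ∫⁻ ξ, iw ξ * nm R s ξ := by
      have h1 : Measurable fun p : ℝ × E3 => iw p.2 * nm R p.1 p.2 := by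
        have : Measurable fun p : ℝ × E3 => iw p.2 := by unfold iw; fun_prop
        exact this.mul hR.1.enorm
      exact h1.lintegral_prod_right'
    calc (∫⁻ s in Ioi 0, ∫⁻ ξ, iw ξ * nm R1 s ξ)
        ≤ ∫⁻ s in Ioi (0 : ℝ), ((∫⁻ ξ, iw ξ * nm R s ξ) +
            ENNReal.ofReal (80 * B) * ∫⁻ ξ, nm g s ξ) := setLIntegral_mono' measurableSet_Ioi hpt
      _ = (∫⁻ s in Ioi (0 : ℝ), ∫⁻ ξ, iw ξ * nm R s ξ) +
            ENNReal.ofReal (80 * B) * ∫⁻ s in Ioi (0 : ℝ), ∫⁻ ξ, nm g s ξ := by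
          rw [lintegral_add_left m3, lintegral_const_mul]
          have h1 : Measurable fun p : ℝ × E3 => nm g p.1 p.2 := hg.1.enorm
          exact h1.lintegral_prod_right'
      _ ≤ ENNReal.ofReal η + ENNReal.ofReal (80 * B) * ENNReal.ofReal γ := by
          gcongr
      _ = ENNReal.ofReal (η + 80 * B * γ) := by
          rw [← ENNReal.ofReal_mul (by positivity), ← ENNReal.ofReal_add hη (by positivity)]
  · intro t ht' ξ
    have hgg := ht_int hκ (TameV_add (hTM g g hg hg) hR) t ξ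
    have hUU := ht_int hκ (hTM U U hU hU) t ξ
    have h1 := hgeq t ht' ξ
    have h2 := hMU t ht' ξ
    have hsum : (∫ s in Ioc 0 t, ht κ ξ (t - s) • (nl (g s) (g s) ξ + R s ξ)) +
        (∫ s in Ioc 0 t, ht κ ξ (t - s) • nl (U s) (U s) ξ) =
        ∫ s in Ioc 0 t, ht κ ξ (t - s) • (nl (fun η => g s η + U' s η)
          (fun η => g s η + U' s η) ξ + R1 s ξ) := by
      rw [← integral_add hgg hUU]
      apply setIntegral_congr_fun measurableSet_Ioc
      intro s hs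
      have hs0 : (0 : ℝ) ≤ s := hs.1.le
      dsimp only
      rw [nl_expand hNL hg hU't hs0 ξ, ← smul_add]
      congr 1
      simp only [hR1]
      rw [hU'e s hs0]
      abel
    dsimp only
    rw [hU'e t ht', hU'e 0 le_rfl, h1, h2, smul_add, ← hsum]
    abel

end Run7.h554.AX
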