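import Pool.Agent.Run7.h148.AX.Stm5

set_option autoImplicit false

open MeasureTheory Set Filter Topology
open scoped ENNReal ContDiff FourierTransform

namespace Run7.h554.AXN

open Pool.Agent.Run7.h148.AX

lemma NN_pos (n : ℕ) : 0 < NN n := by unfold NN; positivity

lemma exp_le_inv {y : ℝ} (hy : 0 < y) : Real.exp (-y) ≤ 1 / y := by
  rw [Real.exp_neg, ← one_div]
  apply one_div_le_one_div_of_le hy
  linarith [Real.add_one_le_exp y]

theorem t_NSC : S_OPN → S_ADD → S_GB1 → S_GB2 → S_GB3 → S_GEQ → S_NSC := by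
  intro hO hA hG1 hG2 hG3 hE ν A ε U hν hAd hε hF
  obtain ⟨hUT, hUM, hUS, HU, B, hHU, hHUB, hHUi, hUH⟩ := hF
  obtain ⟨C, hC, hG2'⟩ := hG2 ν A hν hAd
  obtain ⟨C', hC', hG3'⟩ := hG3 ν A hν hAd
  set κ : ℝ := 4 * Real.pi ^ 2 * ν with hκd
  have hκ : 0 < κ := by positivity
  have hB : 0 ≤ B := le_trans (hHUB 0).1 (hHUB 0).2
  set K1 : ℝ := 2 * C + 2 * B with hK1
  have hK10 : 0 ≤ K1 := by positivity
  set D : ℝ := C + 80 * B * C' with hD
  have hD0 : 0 ≤ D := by positivity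
  set E : ℝ := Real.exp (25600 / κ * (2 * K1 + 2 * 1 ^ 2 / κ)) with hEd
  have hE0 : 0 < E := Real.exp_pos _
  set P : ℝ := 80 * √(K1 / κ) + 40 / κ with hP
  have hP0 : 0 ≤ P := by positivity
  set m : ℝ := min (κ / 51200) (ε / 16) with hm
  have hm0 : 0 < m := by
    rw [hm]
    exact lt_min (by positivity) (by positivity)
  have hm1 : m ≤ κ / 51200 := min_le_left _ _
  have hm2 : m ≤ ε / 16 := min_le_right _ _
  set δ : ℝ := min 1 (min (ε / 4) (m / (P * E + 1))) with hδ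
  have hPE : 0 < P * E + 1 := by positivity
  have hδ0 : 0 < δ := by
    rw [hδ]
    exact lt_min one_pos (lt_min (by positivity) (by positivity))
  have hδ1 : δ ≤ 1 := min_le_left _ _
  have hδ2 : δ ≤ ε / 4 := (min_le_right _ _).trans (min_le_left _ _)
  have hδ3 : δ ≤ m / (P * E + 1) := (min_le_right _ _).trans (min_le_right _ _)
  have hPδ : P * δ * E ≤ m := by
    have h1 : δ * (P * E + 1) ≤ m := (le_div_iff₀ hPE).1 hδ3
    nlinarith
  set W : ℝ := D * E + 2 * C / (ν * ε) with hW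
  have hW0 : 0 ≤ W := by positivity
  refine ⟨δ, ⌈W / m⌉₊, hδ0, fun n hn w hw hws hwδ => ?_⟩
  have hNpos := NN_pos n
  have hNbig : W / NN n ≤ m := by
    rw [div_le_iff₀ hNpos]
    have h1 : W / m ≤ ⌈W / m⌉₊ := Nat.le_ceil _
    have h2 : ((⌈W / m⌉₊ : ℕ) : ℝ) ≤ (n : ℝ) := by exact_mod_cast hn
    have h3 : W / m ≤ NN n := by
      unfold NN
      linarith
    rw [div_le_iff₀ hm0] at h3
    linarith
  have hDE : D / NN n * E ≤ m := by
    have h1 : D / NN n * E = D * E / NN n := by ring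
    rw [h1]
    refine le_trans ?_ hNbig
    apply div_le_div_of_nonneg_right _ hNpos.le
    rw [hW]
    have : 0 ≤ 2 * C / (ν * ε) := by positivity
    linarith
  have hCN : 2 * C / (ν * ε) / NN n ≤ m := by
    refine le_trans ?_ hNbig
    apply div_le_div_of_nonneg_right _ hNpos.le
    rw [hW]
    have : 0 ≤ D * E := by positivity
    linarith
  obtain ⟨⟨H, hHc, hH0, hHi, hHg⟩, hRC, hgt⟩ := hG2' n
  obtain ⟨hgT, hRT, hgS, hRS⟩ := hG1 ν A hν hAd n
  obtain ⟨R1, g1, hg1, hR1T, hg1T, hR1S, hg1S, hg1H, hg1i, hR1i, hg1e⟩ :=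
    hA κ C (C / NN n) (C' / NN n) B H HU (Rr ν A n) (gg ν A n) U hκ hC (by positivity)
      (by positivity) hB hHc hH0 hHi hRT hgT hRS hgS hHg hRC (hG3' n)
      (fun t ht ξ => hE ν A hν hAd n t ht ξ) hUT hUM hUS hHU hHUB hHUi hUH
  set η1 : ℝ := C / NN n + 80 * B * (C' / NN n) with hη1
  have hη1e : η1 = D / NN n := by
    rw [hη1, hD]
    ring
  have hη10 : 0 ≤ η1 := by positivity
  have hδsq : δ ^ 2 ≤ δ := by nlinarith
  have hΦ : (η1 + 80 * δ * √(K1 / κ) + 40 * δ ^ 2 / κ) *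
      Real.exp (25600 / κ * (2 * K1 + 2 * δ ^ 2 / κ)) ≤ 2 * m := by
    have h1 : η1 + 80 * δ * √(K1 / κ) + 40 * δ ^ 2 / κ ≤ η1 + P * δ := by
      have h2 : 40 * δ ^ 2 / κ ≤ 40 * δ / κ := by gcongr
      have h3 : P * δ = 80 * δ * √(K1 / κ) + 40 * δ / κ := by
        rw [hP]
        ring
      linarith
    have h4 : Real.exp (25600 / κ * (2 * K1 + 2 * δ ^ 2 / κ)) ≤ E := by
      rw [hEd]
      apply Real.exp_le_exp.2
      gcongr
    calc (η1 + 80 * δ * √(K1 / κ) + 40 * δ ^ 2 / κ) *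
          Real.exp (25600 / κ * (2 * K1 + 2 * δ ^ 2 / κ)) ≤ (η1 + P * δ) * E := by
          apply mul_le_mul h1 h4 (Real.exp_pos _).le
          positivity
      _ = D / NN n * E + P * δ * E := by
          rw [hη1e]
          ring
      _ ≤ 2 * m := by linarith
  obtain ⟨u, huT, huM, huS, hu0, hud⟩ := hO κ K1 η1 δ (fun t => H t + HU t) R1 g1 w hκ hK10 hη10
    hδ0.le (hHc.add hHU) (fun t => add_nonneg (hH0 t) (hHUB t).1) hg1i hR1T hg1T hR1S hg1S hw hws
    hwδ hg1H hR1i (by linarith) hg1e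
  refine ⟨u, huT, huM, huS, ?_, ?_⟩
  · intro ξ
    rw [hu0 ξ, hg1 0 ξ, max_self]
  · intro t ht
    have ht0 : 0 ≤ t := hε.le.trans ht
    have h1 := hud t ht0
    have h2 := hgt t ht0
    have hmi : Measurable iw := by unfold iw; fun_prop
    have hexp : C * NN n * Real.exp (-(ta ν n t / 2)) ≤ ε / 4 := by
      have hta : ν * NN n ^ 2 * ε ≤ ta ν n t := by
        unfold ta
        gcongr
      have hy : 0 < ν * NN n ^ 2 * ε / 2 := by positivity
      calc C * NN n * Real.exp (-(ta ν n t / 2))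
          ≤ C * NN n * Real.exp (-(ν * NN n ^ 2 * ε / 2)) := by
            gcongr
        _ ≤ C * NN n * (1 / (ν * NN n ^ 2 * ε / 2)) := by
            gcongr
            exact exp_le_inv hy
        _ = 2 * C / (ν * ε) / NN n := by
            have hNne : NN n ≠ 0 := hNpos.ne'
            have hνne : ν ≠ 0 := hν.ne'
            have hεne : ε ≠ 0 := hε.ne'
            field_simp
        _ ≤ ε / 4 := by linarith
    calc (∫⁻ ξ, iw ξ * ‖u t ξ - U t ξ‖ₑ)
        ≤ ∫⁻ ξ, (iw ξ * ‖u t ξ - g1 t ξ‖ₑ + iw ξ * nm (gg ν A n) t ξ) := by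
          apply lintegral_mono
          intro ξ
          dsimp only
          rw [← mul_add]
          gcongr
          have e1 : u t ξ - U t ξ = (u t ξ - g1 t ξ) + gg ν A n t ξ := by
            rw [hg1 t ξ, max_eq_left ht0]
            abel
          rw [e1]
          exact enorm_add_le _ _
      _ = (∫⁻ ξ, iw ξ * ‖u t ξ - g1 t ξ‖ₑ) + ∫⁻ ξ, iw ξ * nm (gg ν A n) t ξ := by
          rw [lintegral_add_left]
          have hu1 : Measurable (u t) := huT.1.of_uncurry_left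
          have hu2 : Measurable (g1 t) := hg1T.1.of_uncurry_left
          exact hmi.mul (hu1.sub hu2).enorm
      _ ≤ ENNReal.ofReal (δ + 4 * (η1 + 80 * δ * √(K1 / κ) + 40 * δ ^ 2 / κ) *
            Real.exp (25600 / κ * (2 * K1 + 2 * δ ^ 2 / κ))) +
            ENNReal.ofReal (C * NN n * Real.exp (-(ta ν n t / 2))) := add_le_add h1 h2
      _ = ENNReal.ofReal (δ + 4 * (η1 + 80 * δ * √(K1 / κ) + 40 * δ ^ 2 / κ) *
            Real.exp (25600 / κ * (2 * K1 + 2 * δ ^ 2 / κ)) +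
            C * NN n * Real.exp (-(ta ν n t / 2))) := by
          have p1 : 0 ≤ δ + 4 * (η1 + 80 * δ * √(K1 / κ) + 40 * δ ^ 2 / κ) *
            Real.exp (25600 / κ * (2 * K1 + 2 * δ ^ 2 / κ)) := by positivity
          have p2 : 0 ≤ C * NN n * Real.exp (-(ta ν n t / 2)) :=
            mul_nonneg (mul_nonneg hC hNpos.le) (Real.exp_pos _).le
          rw [← ENNReal.ofReal_add p1 p2]
      _ ≤ ENNReal.ofReal ε := by
          apply ENNReal.ofReal_le_ofReal
          linarith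

end Run7.h554.AXN
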